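import Pool.Agent.Lib.helper9.LKit
import Pool.Agent.Lib.helper10.Sat3

namespace Pool.Agent.Results.MP_a08d7f_lc.CoNPComplete

open Pool.Agent.Cx Pool.Agent.Cis List Polynomial

abbrev Mx := List (List Bool)

/-- `p` lists the vertices of a simple path with at least one edge in the graph with matrix `M` -/
def IsPath (M : Mx) (p : List ℕ) : Prop :=
  2 ≤ p.length ∧ p.Nodup ∧ (∀ x ∈ p, x < M.length) ∧ IsChain (Entry M) p

/-- the ends of `p` are `u` and `v` -/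
def Joins (p : List ℕ) (u v : ℕ) : Prop :=
  (p.head? = some u ∧ p.getLast? = some v) ∨ (p.head? = some v ∧ p.getLast? = some u)

/-- `L` is a path system: exactly one member joins any two distinct vertices -/
def PathSys (M : Mx) (L : List (List ℕ)) : Prop :=
  L.Nodup ∧ (∀ p ∈ L, IsPath M p) ∧ ∀ u < M.length, ∀ v < M.length, u ≠ v → ∃! p, p ∈ L ∧ Joins p u v

/-- every subpath of a member is, up to direction, a member -/
def Consistent (L : List (List ℕ)) : Prop :=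
  ∀ p ∈ L, ∀ q, q <:+: p → 2 ≤ q.length → q ∈ L ∨ q.reverse ∈ L

/-- `A` and its complement in `{0, ..., n-1}` form a reduction -/
def Reduction (n : ℕ) (L : List (List ℕ)) (A : Set ℕ) : Prop :=
  (∃ u < n, u ∈ A) ∧ (∃ v < n, v ∉ A) ∧ ∀ p ∈ L, ∀ u v, Joins p u v →
    (u ∈ A → v ∈ A → ∀ w ∈ p, w ∈ A) ∧ (u ∉ A → v ∉ A → ∀ w ∈ p, w ∉ A)

/-- a graph with a consistent path system -/
def Valid (z : Mx × List (List ℕ)) : Prop := IsGraph z.1 ∧ PathSys z.1 z.2 ∧ Consistent z.2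

/-- the system has a reduction -/
def Reducible (z : Mx × List (List ℕ)) : Prop := Valid z ∧ ∃ A, Reduction z.1.length z.2 A

/-- the system is irreducible -/
def Irreducible (z : Mx × List (List ℕ)) : Prop := Valid z ∧ ¬ ∃ A, Reduction z.1.length z.2 A

section
variable (n : ℕ) (C : ℕ → ℕ → ℕ → Prop) [∀ u v k, Decidable (C u v k)]

def ed (u v : ℕ) : Prop := u ≠ v ∧ ¬ ∃ k < n, C u v k ∨ C v u k

instance : DecidableRel (ed n C) := fun _ _ => by unfold ed; infer_instance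

def gr : Mx := mat (range n) fun u v => decide (ed n C u v)

def sys : List (List ℕ) :=
  ((range n ×ˢ range n ×ˢ range n).filter fun x => decide (C x.1 x.2.1 x.2.2)).map
    (fun x => [x.1, x.2.2, x.2.1]) ++
  ((range n ×ˢ range n).filter fun x => decide (x.1 < x.2 ∧ ed n C x.1 x.2)).map fun x => [x.1, x.2]

variable {n C} (h0 : ∀ u v k, C u v k → u < n ∧ v < n ∧ k < n ∧ u ≠ v)
  (h1 : ∀ u v k l, C u v k → C u v l → k = l) (h2 : ∀ u v k l, C u v k → ¬ C v u l)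
  (h3 : ∀ u v k, C u v k → ed n C u k ∧ ed n C k v)
include h0

lemma mem_sys {p : List ℕ} : p ∈ sys n C ↔ (∃ u v k, C u v k ∧ p = [u, k, v]) ∨
    ∃ u v, u < v ∧ v < n ∧ ed n C u v ∧ p = [u, v] := by
  simp only [sys, mem_append, mem_map, mem_filter, Prod.exists, mem_product, mem_range, decide_eq_true_eq]
  grind

omit h0 in
lemma ent_gr {u v : ℕ} : Entry (gr n C) u v ↔ u < n ∧ v < n ∧ ed n C u v := by
  simp [Entry, gr, -getD_eq_getElem?_getD, mat_get]; tauto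

omit h0 [∀ u v k, Decidable (C u v k)] in
lemma ed_symm {u v : ℕ} (h : ed n C u v) : ed n C v u := by unfold ed at *; grind

include h1 h2 h3 in
lemma valid : Valid (gr n C, sys n C) := by
  have lg : (gr n C).length = n := by simp [gr]
  have pr : ∀ u v, u < n → v < n → ed n C u v → [u, v] ∈ sys n C ∨ [v, u] ∈ sys n C :=
    fun u v a b c => by
      rcases lt_or_gt_of_ne c.1 with e | e
      · exact Or.inl ((mem_sys h0).2 (Or.inr ⟨u, v, e, b, c, rfl⟩))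
      · exact Or.inr ((mem_sys h0).2 (Or.inr ⟨v, u, e, a, ed_symm c, rfl⟩))
  refine ⟨⟨mat_row _ _, fun i h => (ent_gr.1 h).2.2.1 rfl, fun i j h => ent_gr.2 ⟨(ent_gr.1 h).2.1,
    (ent_gr.1 h).1, ed_symm (ent_gr.1 h).2.2⟩⟩, ⟨nodup_append.2 ⟨?_, ?_, by simp; grind⟩, fun p hp => ?_,
    fun u hu v hv e => ?_⟩, fun p hp q hq l => ?_⟩
  · exact ((nodup_range.product (nodup_range.product nodup_range)).filter _).map
      fun _ _ h => by simp [Prod.ext_iff] at *; tauto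
  · exact ((nodup_range.product nodup_range).filter _).map fun _ _ h => by simpa [Prod.ext_iff] using h
  · rcases (mem_sys h0).1 hp with ⟨u, v, k, c, rfl⟩ | ⟨u, v, a, b, c, rfl⟩
    · have := h0 _ _ _ c
      have := h3 _ _ _ c
      simp [IsPath, ent_gr, this.1.1, this.2.1, lg, *]
    · simp [IsPath, ent_gr, lg, *]; omega
  · simp only [gr, mat_length, length_range] at hu hv
    simp only [mem_sys h0]
    have j3 : ∀ a b c, Joins [a, b, c] u v ↔ (a = u ∧ c = v) ∨ (a = v ∧ c = u) := by simp [Joins]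
    have j2 : ∀ a c, Joins [a, c] u v ↔ (a = u ∧ c = v) ∨ (a = v ∧ c = u) := by simp [Joins]
    refine existsUnique_of_exists_of_unique ?_ ?_
    · by_cases c : ed n C u v
      · rcases pr u v hu hv c with h | h <;> exact ⟨_, (mem_sys h0).1 h, by simp [j2]⟩
      · obtain ⟨k, -, h | h⟩ : ∃ k < n, C u v k ∨ C v u k := by_contra fun d => c ⟨e, d⟩
        all_goals exact ⟨_, Or.inl ⟨_, _, _, h, rfl⟩, by simp [j3]⟩
    · rintro _ _ ⟨⟨a, b, k, c, rfl⟩ | ⟨a, b, c1, c2, c, rfl⟩, d⟩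
        ⟨⟨a', b', k', c', rfl⟩ | ⟨a', b', c1', c2', c', rfl⟩, d'⟩ <;> simp only [j2, j3, ed] at * <;> grind
  · rcases (mem_sys h0).1 hp with ⟨u, v, k, c, rfl⟩ | ⟨u, v, a, b, c, rfl⟩
    · have a := h0 _ _ _ c
      have b := h3 _ _ _ c
      obtain rfl | rfl | rfl : q = [u, k, v] ∨ q = [u, k] ∨ q = [k, v] := by
        simp only [infix_cons_iff, prefix_cons_iff, infix_nil, prefix_nil] at hq; grind
      exacts [Or.inl hp, pr _ _ a.1 a.2.2.1 b.1, pr _ _ a.2.2.1 a.2.1 b.2]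
    · exact Or.inl (hq.sublist.eq_of_length_le (by simpa) ▸ hp)

lemma red_iff (A : Set ℕ) : Reduction n (sys n C) A ↔ (∃ u < n, u ∈ A) ∧ (∃ v < n, v ∉ A) ∧
    ∀ u v k, C u v k → (u ∈ A ↔ v ∈ A) → (k ∈ A ↔ u ∈ A) := by
  refine and_congr_right fun _ => and_congr_right fun _ => ⟨fun h u v k c e => ?_, fun h p hp u v j => ?_⟩
  · have := h _ ((mem_sys h0).2 (Or.inl ⟨u, v, k, c, rfl⟩)) u v (by simp [Joins])
    simp at this; tauto
  · rcases (mem_sys h0).1 hp with ⟨a, b, k, c, rfl⟩ | ⟨a, b, -, -, -, rfl⟩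
    · have := h _ _ _ c
      simp [Joins] at j ⊢; grind
    · simp [Joins] at j ⊢; grind

end

abbrev F := List (Lit × Lit × Lit)

def lit (φ : F) (s : ℕ) : Lit :=
  [(φ.getD (s / 3) ((0, false), (0, false), (0, false))).1,
    (φ.getD (s / 3) ((0, false), (0, false), (0, false))).2.1].getD (s % 3)
    (φ.getD (s / 3) ((0, false), (0, false), (0, false))).2.2

lemma sat_iff {φ : F} : Sat3 φ ↔ ∃ τ : ℕ → Bool, ∀ j < φ.length, ∃ r < 3,
    τ (lit φ (3 * j + r)).1 = (lit φ (3 * j + r)).2 := by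
  refine exists_congr fun τ => ?_
  rw [forall_mem_iff_getElem]
  refine forall₂_congr fun j hj => ?_
  simp only [Nat.exists_lt_succ_right]
  simp [lit, hj, show (3 * j + 1) / 3 = j by omega, show (3 * j + 2) / 3 = j by omega, or_assoc]

/-- the six-vertex gadget and the chain of constants -/
def c1 (m u v k : ℕ) : Prop :=
  (u = 7 * m + 4 ∧ v = 7 * m + 5 ∧ k = 7 * m + 3) ∨ (u = 7 * m + 2 ∧ v = 7 * m + 6 ∧ k = 7 * m + 5) ∨
  (u = 7 * m + 3 ∧ v = 7 * m + 6 ∧ k = 7 * m + 1) ∨ (u = 7 * m + 2 ∧ v = 7 * m + 3 ∧ k = 7 * m + 4) ∨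
  (u = 7 * m + 1 ∧ v = 7 * m + 4 ∧ k = 7 * m + 2) ∨ (u = 7 * m + 1 ∧ v = 7 * m + 5 ∧ k = 4 * m) ∨
  (4 * m ≤ u ∧ u < 7 * m ∧ v = 7 * m + 2 + 2 * (u % 2) ∧ k = u + 1) ∨
  (4 * m ≤ u ∧ u < 7 * m ∧ v = 7 * m + 6 ∧ k + 4 * m = u)

def c2 (m u v k : ℕ) : Prop :=
  (u < 3 * m ∧ u % 3 = 0 ∧ v = u + 1 ∧ k = 3 * m + u / 3) ∨
  (3 * m ≤ u ∧ u < 4 * m ∧ v + 9 * m = 3 * u + 2 ∧ k = 7 * m + 6)

def c3 (m u v k : ℕ) : Prop := u < v ∧ v < 3 * m ∧ u / 3 ≠ v / 3 ∧ k = 7 * m + 4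

def con (φ : F) (u v k : ℕ) : Prop := c1 φ.length u v k ∨ c2 φ.length u v k ∨
  (c3 φ.length u v k ∧ (lit φ u).1 = (lit φ v).1 ∧ (lit φ u).2 ≠ (lit φ v).2)

instance (φ : F) (u v k : ℕ) : Decidable (con φ u v k) := by unfold con c1 c2 c3; infer_instance

variable {φ : F}

lemma weak {u v k : ℕ} (h : con φ u v k) : c1 φ.length u v k ∨ c2 φ.length u v k ∨ c3 φ.length u v k :=
  h.imp id (Or.imp id And.left)

lemma g0 (u v k : ℕ) (h : con φ u v k) :
    u < 7 * φ.length + 7 ∧ v < 7 * φ.length + 7 ∧ k < 7 * φ.length + 7 ∧ u ≠ v := by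
  have := weak h
  unfold c1 c2 c3 at this; omega

lemma g1 (u v k l : ℕ) (h : con φ u v k) (g : con φ u v l) : k = l := by
  have h := weak h
  have g := weak g
  unfold c1 c2 c3 at *
  rcases h with (h | h | h | h | h | h | h | h) | (h | h) | h <;> omega

lemma g2 (u v k l : ℕ) (h : con φ u v k) : ¬ con φ v u l := fun g => by
  have h := weak h
  have g := weak g
  unfold c1 c2 c3 at *
  rcases h with (h | h | h | h | h | h | h | h) | (h | h) | h <;> omega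

lemma g3 (u v k : ℕ) (h : con φ u v k) :
    ed (7 * φ.length + 7) (con φ) u k ∧ ed (7 * φ.length + 7) (con φ) k v := by
  have h := weak h
  refine ⟨⟨?_, ?_⟩, ?_, ?_⟩
  · unfold c1 c2 c3 at h; omega
  · rintro ⟨l, -, g | g⟩ <;> have g := weak g <;> unfold c1 c2 c3 at * <;>
      rcases h with (h | h | h | h | h | h | h | h) | (h | h) | h <;> omega
  · unfold c1 c2 c3 at h; omega
  · rintro ⟨l, -, g | g⟩ <;> have g := weak g <;> unfold c1 c2 c3 at * <;>
      rcases h with (h | h | h | h | h | h | h | h) | (h | h) | h <;> omega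

lemma of_sat (h : Sat3 φ) : ∃ A, Reduction (7 * φ.length + 7) (sys (7 * φ.length + 7) (con φ)) A := by
  obtain ⟨τ, h⟩ := sat_iff.1 h
  let t := fun s => τ (lit φ s).1 = (lit φ s).2
  let A : Set ℕ := {u | u = 7 * φ.length + 6 ∨ (u < 3 * φ.length ∧ t u) ∨ (3 * φ.length ≤ u ∧
    u < 4 * φ.length ∧ (t (3 * (u - 3 * φ.length)) ∨ t (3 * (u - 3 * φ.length) + 1)))}
  have a1 : ∀ u, 4 * φ.length ≤ u → (u ∈ A ↔ u = 7 * φ.length + 6) := fun u _ => by
    simp only [A, Set.mem_ofPred_eq]; grind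
  have a2 : ∀ u < 3 * φ.length, (u ∈ A ↔ t u) := fun u _ => by simp only [A, Set.mem_ofPred_eq]; grind
  have a3 : ∀ j < φ.length, (3 * φ.length + j ∈ A ↔ t (3 * j) ∨ t (3 * j + 1)) := fun u _ => by
    simp only [A, Set.mem_ofPred_eq, Nat.add_sub_cancel_left]; grind
  refine ⟨A, (red_iff g0 A).2 ⟨⟨_, by omega, Or.inl rfl⟩, ⟨7 * φ.length + 1, by omega, by
    rw [a1 _ (by omega)]; omega⟩, ?_⟩⟩
  rintro u v k (c | (c | c) | ⟨c, d, e⟩)
  · unfold c1 at c
    rw [a1 u (by omega), a1 v (by omega)]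
    by_cases k < 4 * φ.length
    · omega
    · rw [a1 k (by omega)]; omega
  · obtain ⟨j, rfl⟩ : ∃ j, u = 3 * j := ⟨u / 3, by omega⟩
    rw [c.2.2.1, c.2.2.2, show 3 * j / 3 = j by omega, a3 _ (by omega), a2 _ (by omega), a2 _ (by omega)]
    tauto
  · obtain ⟨j, rfl⟩ : ∃ j, u = 3 * φ.length + j := ⟨u - 3 * φ.length, by omega⟩
    obtain ⟨r, r1, r2⟩ := h j (by omega)
    rw [show v = 3 * j + 2 by omega, a3 _ (by omega), a2 _ (by omega), a1 k (by omega)]
    obtain rfl | rfl | rfl : r = 0 ∨ r = 1 ∨ r = 2 := by omega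
    all_goals simp only [t, c.2.2.2]; tauto
  · unfold c3 at c
    rw [a2 u (by omega), a2 v (by omega), a1 k (by omega)]
    simp only [t, d]; grind

lemma mid {u v k o : Prop} (h : (u ↔ v) → (k ↔ u)) (hu : u ↔ o) (hv : v ↔ o) : k ↔ o := by grind

lemma gad {a b c d e f : Prop} (p1 : (d ↔ e) → (c ↔ d)) (p2 : (b ↔ f) → (e ↔ b)) (p3 : (c ↔ f) → (a ↔ c))
    (p4 : (b ↔ c) → (d ↔ b)) (p5 : (a ↔ d) → (b ↔ a)) (h : d ↔ f) :
    (a ↔ f) ∧ (b ↔ f) ∧ (c ↔ f) ∧ (e ↔ f) := by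
  by_cases a <;> by_cases b <;> by_cases c <;> by_cases e <;> by_cases f <;> simp_all

lemma cla {a b c y o : Prop} (p1 : (a ↔ b) → (y ↔ a)) (p2 : (y ↔ c) → (o ↔ y)) :
    ((a ↔ o) ∨ (b ↔ o)) ∨ (c ↔ o) := by grind

lemma to_sat {A : Set ℕ} (h' : Reduction (7 * φ.length + 7) (sys (7 * φ.length + 7) (con φ)) A) : Sat3 φ := by
  classical
  obtain ⟨⟨a, a1, a2⟩, ⟨b, b1, b2⟩, h⟩ := (red_iff g0 A).1 h'
  clear h'
  set m := φ.length
  have k1 := fun u v k (c : c1 m u v k) => h u v k (Or.inl c)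
  have k2 := fun u v k (c : c2 m u v k) => h u v k (Or.inr (Or.inl c))
  have zo : ¬ (7 * m + 4 ∈ A ↔ 7 * m + 6 ∈ A) := fun e => by
    obtain ⟨p1, p2, p3, p4⟩ := gad (k1 (7 * m + 4) (7 * m + 5) (7 * m + 3) (by simp [c1]))
      (k1 (7 * m + 2) (7 * m + 6) (7 * m + 5) (by simp [c1])) (k1 (7 * m + 3) (7 * m + 6) (7 * m + 1)
      (by simp [c1])) (k1 (7 * m + 2) (7 * m + 3) (7 * m + 4) (by simp [c1]))
      (k1 (7 * m + 1) (7 * m + 4) (7 * m + 2) (by simp [c1])) e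
    have q1 : ∀ u, 7 * m < u → u < 7 * m + 7 → (u ∈ A ↔ 7 * m + 6 ∈ A) := fun u _ _ => by
      obtain rfl | rfl | rfl | rfl | rfl | rfl : u = 7 * m + 1 ∨ u = 7 * m + 2 ∨ u = 7 * m + 3 ∨
        u = 7 * m + 4 ∨ u = 7 * m + 5 ∨ u = 7 * m + 6 := by omega
      exacts [p1, p2, p3, e, p4, Iff.rfl]
    have q2 : ∀ s ≤ 3 * m, (4 * m + s ∈ A ↔ 7 * m + 6 ∈ A) := fun s hs => by
      induction s with
      | zero => exact mid (k1 (7 * m + 1) (7 * m + 5) (4 * m) (by simp [c1])) p1 p4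
      | succ s ih =>
        exact mid (k1 (4 * m + s) (7 * m + 2 + 2 * ((4 * m + s) % 2)) _ (by unfold c1; omega))
          (ih (by omega)) (q1 _ (by omega) (by omega))
    have q3 : ∀ s < 3 * m, (s ∈ A ↔ 7 * m + 6 ∈ A) := fun s hs =>
      mid (k1 (4 * m + s) (7 * m + 6) s (by unfold c1; omega)) (q2 s hs.le) Iff.rfl
    have q4 : ∀ u < 7 * m + 7, (u ∈ A ↔ 7 * m + 6 ∈ A) := fun u hu => by
      by_cases c : u < 3 * m
      · exact q3 u c
      by_cases d : u < 4 * m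
      · exact mid (k2 (3 * (u - 3 * m)) (3 * (u - 3 * m) + 1) u (by unfold c2; omega)) (q3 _ (by omega))
          (q3 _ (by omega))
      by_cases e : u ≤ 7 * m
      · have := q2 (u - 4 * m) (by omega)
        rwa [show 4 * m + (u - 4 * m) = u by omega] at this
      · exact q1 u (by omega) hu
    exact b2 ((q4 b b1).2 ((q4 a a1).1 a2))
  have : ∀ j, ∃ r < 3, j < m → (3 * j + r ∈ A ↔ 7 * m + 6 ∈ A) := fun j => by
    by_cases c : j < m
    · simp only [Nat.exists_lt_succ_right]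
      simpa [c] using cla (k2 (3 * j) (3 * j + 1) (3 * m + j) (by unfold c2; omega))
        (k2 (3 * m + j) (3 * j + 2) (7 * m + 6) (by unfold c2; omega))
    · exact ⟨0, by omega, by omega⟩
  choose σ s1 s2 using this
  have cf : ∀ i < m, ∀ j < m, i < j → (lit φ (3 * i + σ i)).1 = (lit φ (3 * j + σ j)).1 →
      (lit φ (3 * i + σ i)).2 = (lit φ (3 * j + σ j)).2 := fun i hi j hj l e => by
    by_contra c
    have := s1 i
    have := s1 j
    exact zo (mid (h _ _ (7 * m + 4) (Or.inr (Or.inr ⟨by unfold c3; omega, e, c⟩))) (s2 i hi) (s2 j hj))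
  refine sat_iff.2 ⟨fun v => decide (∃ i < m, lit φ (3 * i + σ i) = (v, true)), fun j hj => ⟨σ j, s1 j, ?_⟩⟩
  cases c : (lit φ (3 * j + σ j)).2
  · simp only [decide_eq_false_iff_not]
    rintro ⟨i, hi, e⟩
    rcases lt_trichotomy i j with l | rfl | l
    · simpa [e, c] using cf i hi j hj l
    · rw [e] at c; simp at c
    · simpa [e, c] using cf j hj i hi l
  · exact decide_eq_true ⟨j, hj, by rw [← c]⟩

def red (φ : F) : Mx × List (List ℕ) := (gr (7 * φ.length + 7) (con φ), sys (7 * φ.length + 7) (con φ))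

lemma red_pt : PT red := by
  have a : PT fun z : F × ℕ => lit z.1 z.2 := by unfold lit; fun_prop
  have b1 : PP fun z : ℕ × ℕ × ℕ × ℕ => c1 z.1 z.2.1 z.2.2.1 z.2.2.2 := by unfold c1; fun_prop
  have b2 : PP fun z : ℕ × ℕ × ℕ × ℕ => c2 z.1 z.2.1 z.2.2.1 z.2.2.2 := by unfold c2; fun_prop
  have b3 : PP fun z : ℕ × ℕ × ℕ × ℕ => c3 z.1 z.2.1 z.2.2.1 z.2.2.2 := by unfold c3; fun_prop
  have c : PP fun z : F × ℕ × ℕ × ℕ => con z.1 z.2.1 z.2.2.1 z.2.2.2 := by unfold con; fun_prop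
  have d : PP fun z : F × ℕ × ℕ => ed (7 * z.1.length + 7) (con z.1) z.2.1 z.2.2 := by unfold ed; fun_prop
  unfold red gr sys
  exact (PT.mat (by fun_prop) d.decide).pair (PT.append (PT.map (by fun_prop) (PT.filter c.decide
    (by fun_prop))) (PT.map (by fun_prop) (PT.filter (PP.decide (PP.and (by fun_prop) d)) (by fun_prop))))

lemma sat_red (φ : F) : Valid (red φ) ∧ (Sat3 φ ↔ ∃ A, Reduction (red φ).1.length (red φ).2 A) :=
  ⟨valid g0 g1 g2 g3, by simpa [red, gr] using ⟨of_sat, fun ⟨_, h⟩ => to_sat h⟩⟩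

def val (z : Mx × List (List ℕ)) : Prop := IsGraph z.1 ∧ (z.2.Nodup ∧
  (¬ ∃ p ∈ z.2, ¬ (2 ≤ p.length ∧ p.Nodup ∧ (¬ ∃ x ∈ p, ¬ x < z.1.length) ∧
    ¬ ∃ x ∈ p.zip p.tail, ¬ ent z.1 x.1 x.2 = true)) ∧
  ¬ ∃ u < z.1.length, ∃ v < z.1.length, u ≠ v ∧ ¬ ∃ p ∈ z.2, Joins p u v ∧
    ¬ ∃ q ∈ z.2, Joins q u v ∧ q ≠ p) ∧
  ¬ ∃ p ∈ z.2, ∃ i < p.length, ∃ j < p.length + 1, 2 ≤ ((p.drop i).take j).length ∧
    ¬ ((p.drop i).take j ∈ z.2 ∨ ((p.drop i).take j).reverse ∈ z.2)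

lemma pp_joins : PP fun z : List ℕ × ℕ × ℕ => Joins z.1 z.2.1 z.2.2 := by unfold Joins; fun_prop

lemma pp_valid : PP Valid := by
  have : Valid = val := by
    ext ⟨M, L⟩
    have e : ∀ p : List ℕ, IsChain (Entry M) p ↔ ∀ x ∈ p.zip p.tail, ent M x.1 x.2 = true := fun p => by
      simp only [Prod.forall, ← infix_pair_iff, isChain_iff_forall_rel_of_append_cons_cons, IsInfix]
      exact ⟨fun h a b ⟨s, t, e⟩ => h (by simpa using e.symm), fun h a b s t e => h a b ⟨s, t, by simp [e]⟩⟩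
    simp only [Valid, val, PathSys, IsPath, Consistent, e, ExistsUnique]
    push Not
    refine and_congr_right fun _ => and_congr (by grind) (forall₂_congr fun p _ => ⟨fun h i _ j _ l => ?_,
      fun h q ⟨s, t, e⟩ l => ?_⟩)
    · simpa [or_iff_not_imp_left] using h _ ((take_prefix _ _).isInfix.trans (drop_suffix _ _).isInfix) l
    · simpa [← e, or_iff_not_imp_left] using h s.length (by simp [← e]; omega) q.length
        (by simp [← e]; omega) (by simpa [← e] using l)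
  have := pp_isGraph
  have := pp_joins
  rw [‹Valid = val›]; unfold val; fun_prop

def rd (z : (Mx × List (List ℕ)) × List ℕ) : Prop :=
  (∃ u < z.1.1.length, u ∈ z.2) ∧ (∃ v < z.1.1.length, v ∉ z.2) ∧ ¬ ∃ p ∈ z.1.2, ∃ u ∈ p, ∃ v ∈ p,
    Joins p u v ∧ ((u ∈ z.2 ∧ v ∈ z.2 ∧ ∃ w ∈ p, w ∉ z.2) ∨ (u ∉ z.2 ∧ v ∉ z.2 ∧ ∃ w ∈ p, w ∈ z.2))

lemma rd_iff (z : Mx × List (List ℕ)) (w : List ℕ) : rd (z, w) ↔ Reduction z.1.length z.2 {x | x ∈ w} := by
  have : ∀ p u v, Joins p u v → u ∈ p ∧ v ∈ p := by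
    rintro p u v (h | h) <;> simp [mem_of_head? h.1, mem_of_getLast? h.2]
  simp only [rd, Reduction, Set.mem_ofPred_eq]; grind

lemma cert {z : Mx × List (List ℕ)} (h : Reducible z) :
    ∃ w, size w ≤ (X * (2 * X + 2) + 1 : ℕ[X]).eval (size z) ∧ rd (z, w) := by
  classical
  obtain ⟨v, A, h⟩ := h
  have l : z.1.length < size z := by have := length_lt_size z.1; obtain ⟨_, _⟩ := z; simp at *; omega
  refine ⟨(range z.1.length).filter (· ∈ A), ?_, (rd_iff _ _).2 ⟨by simpa using by grind [Reduction],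
    by simpa using by grind [Reduction], fun p hp u v' j => ?_⟩⟩
  · have h1 := size_list_le ((range z.1.length).filter (· ∈ A)) (2 * size z + 1) fun x hx => by
      simp at hx ⊢; omega
    have h2 : ((range z.1.length).filter (· ∈ A)).length ≤ size z :=
      (length_filter_le _ _).trans (by simp; omega)
    have := Nat.mul_le_mul_right (2 * size z + 1 + 1) h2
    simp; nlinarith
  · have a := (v.2.1.2.1 p hp).2.2.1
    have b := h.2.2 p hp u v' j
    have c : u ∈ p ∧ v' ∈ p := by rcases j with h | h <;> simp [mem_of_head? h.1, mem_of_getLast? h.2]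
    simp only [Set.mem_ofPred_eq, mem_filter, mem_range, decide_eq_true_eq]
    grind

theorem result : NPComplete (Lang Reducible) ∧ CoNPComplete (Lang Irreducible) := by
  classical
  have r : PP rd := by have := pp_joins; unfold rd; fun_prop
  have v := pp_valid
  refine ⟨⟨inNP_Lang (V := fun z => decide (Valid z.1 ∧ rd z)) (PP.decide (by fun_prop)) _
    (fun z h => let ⟨w, a, b⟩ := cert h; ⟨w, a, decide_eq_true ⟨h.1, b⟩⟩) fun z w h =>
      ⟨(of_decide_eq_true h).1, _, (rd_iff _ _).1 (of_decide_eq_true h).2⟩,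
    (hard_sat3.red red_pt fun φ => ?_).npHard⟩, inCoNP_Lang (V := fun z => decide (¬ Valid z.1 ∨ rd z))
    (PP.decide (by fun_prop)) (X * (2 * X + 2) + 1) (fun z h => ?_) fun z w h g => ?_,
    Hard.coNPHard (hard_sat3.red red_pt fun φ => ?_)⟩
  · simp [Reducible, sat_red]
  · by_cases c : Valid z
    · obtain ⟨w, a, b⟩ := cert ⟨c, by simpa [Irreducible, c] using h⟩
      exact ⟨w, a, by simp [b]⟩
    · exact ⟨[], by simp, by simp [c]⟩
  · exact g.2 ⟨_, (rd_iff _ _).1 ((of_decide_eq_true h).resolve_left (not_not.2 g.1))⟩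
  · simp [Irreducible, sat_red]

end Pool.Agent.Results.MP_a08d7f_lc.CoNPComplete
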